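import Mathlib
import Pool.Agent.H555R3.Draw2

set_option autoImplicit false

/-!
Question Q2 on upward planar poly-line grid drawings of bipartite DAGs.

`H555R3.Ap n` is the maximum, over all bipartite DAGs `G` on `n` vertices (all edges directed from
`V₁` to `V₂`) that admit a poly-line upward planar grid drawing, of the minimum area `W * H` of such
a drawing of `G`.  The theorem is the quadratic lower bound; with the known upper bound `O(n²)` it
shows that `A_p(n)` grows quadratically.

The extremal graphs are nested 4-cycles `a_i, w_i, b_i, z_i` (sources `a_i, b_i`, sinks `w_i, z_i`)
with the edges `a_i → w_{i+1}`, `b_{i+1} → w_i`, `b_i → z_{i+1}` between consecutive layers.  They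
are drawn explicitly in `H555R3.nestDrawing`, and in every drawing a layer encloses one of its two
neighbouring layers (van Kampen obstruction for `K₅`), so the bounding boxes grow by two in both
directions at each of at least `n / 8` steps.
-/

namespace Pool.Agent.Results.MP_9caa86_co.PolylineQuadratic

theorem result : ∀ n : ℕ, (n / 4 - 2) ^ 2 ≤ H555R3.Ap n :=
  H555R3.result_bound

end Pool.Agent.Results.MP_9caa86_co.PolylineQuadratic
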